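import Pool.Agent.W670.ML.Defs2

set_option autoImplicit false

namespace Pool.Agent.W174.ML2

open Pool.Agent.W670.ML NumberField

theorem agree {K Ω : Type} [Field K] [Field Ω] [Algebra K Ω] {r : ℕ}
    (L : Fin r → IntermediateField K Ω) (ψ ψ' : ↥(⨆ i, L i) →ₐ[K] Ω)
    (h : ∀ i, ψ.comp (IntermediateField.inclusion (le_iSup L i)) =
      ψ'.comp (IntermediateField.inclusion (le_iSup L i))) : ψ = ψ' := by
  let F : IntermediateField K ↥(⨆ i, L i) :=
    Subalgebra.toIntermediateField (AlgHom.equalizer ψ ψ') (by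
      intro x hx
      rw [AlgHom.mem_equalizer] at hx ⊢
      rw [map_inv₀, map_inv₀, hx])
  have hF : ∀ x, x ∈ F ↔ ψ x = ψ' x := fun x => Iff.rfl
  have hle : (⨆ i, L i) ≤ IntermediateField.lift F := by
    refine iSup_le fun i x hx => ?_
    have hx' : x ∈ (⨆ i, L i) := le_iSup L i hx
    have h1 : (⟨x, hx'⟩ : ↥(⨆ i, L i)) ∈ F := by
      rw [hF]
      exact DFunLike.congr_fun (h i) (⟨x, hx⟩ : ↥(L i))
    exact (IntermediateField.mem_lift (⟨x, hx'⟩ : ↥(⨆ i, L i))).2 h1
  ext x
  have h2 := hle x.2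
  rw [IntermediateField.mem_lift] at h2
  exact (hF x).1 h2

theorem extend {K Ω : Type} [Field K] [Field Ω] [Algebra K Ω] [IsAlgClosure K Ω]
    (L : IntermediateField K Ω) (ψ : ↥L →ₐ[K] Ω) :
    ∃ ρ : Ω ≃ₐ[K] Ω, ∀ x : ↥L, ρ (algebraMap (↥L) Ω x) = ψ x := by
  have : Normal K Ω := IsAlgClosure.normal K Ω
  have : Algebra.IsAlgebraic K Ω := IsAlgClosure.isAlgebraic
  refine ⟨AlgEquiv.ofBijective (ψ.liftNormal Ω) (Algebra.IsAlgebraic.algHom_bijective _), ?_⟩
  intro x
  have := ψ.liftNormal_commutes Ω x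
  simpa using this

theorem transit {K Ω : Type} [Field K] [Field Ω] [Algebra K Ω] [IsAlgClosure K Ω]
    (L : IntermediateField K Ω) (ψ ψ' : ↥L →ₐ[K] Ω) :
    ∃ σ : Ω ≃ₐ[K] Ω, σ.toAlgHom.comp ψ = ψ' := by
  obtain ⟨ρ, hρ⟩ := extend L ψ
  obtain ⟨ρ', hρ'⟩ := extend L ψ'
  refine ⟨ρ.symm.trans ρ', ?_⟩
  ext x
  show ρ' (ρ.symm (ψ x)) = ψ' x
  rw [← hρ, AlgEquiv.symm_apply_apply, hρ']

theorem im (h1 : S_IQ) : S_IM := by
  classical
  intro K Ω _ _ _ _ _ n k m r G H L hn hL hm hM h hh hne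
  obtain ⟨hk, eH, hH⟩ := hM
  obtain ⟨σ, hσ⟩ := (hH h).1 hh
  have e1 : ∃ φ0 : ↥(⨆ i, L i) →ₐ[K] Ω, σ.toAlgHom.comp φ0 ≠ φ0 := by
    by_contra hcon
    push Not at hcon
    apply hne
    ext a
    have := hσ (eH.symm a)
    rw [hcon, Equiv.apply_symm_apply] at this
    rw [this]; rfl
  obtain ⟨φ0, hφ0⟩ := e1
  have e2 : ∃ i, σ.toAlgHom.comp (φ0.comp (IntermediateField.inclusion (le_iSup L i))) ≠
      φ0.comp (IntermediateField.inclusion (le_iSup L i)) := by
    by_contra hcon
    push Not at hcon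
    apply hφ0
    apply agree L
    intro i
    rw [AlgHom.comp_assoc]
    exact hcon i
  obtain ⟨i, hi⟩ := e2
  obtain ⟨hni, e, hG⟩ := hL i
  let ι : ↥(L i) →ₐ[K] ↥(⨆ i, L i) := IntermediateField.inclusion (le_iSup L i)
  let act : (Ω ≃ₐ[K] Ω) → (↥(L i) →ₐ[K] Ω) ≃ (↥(L i) →ₐ[K] Ω) := fun s =>
      { toFun := fun ψ => s.toAlgHom.comp ψ
        invFun := fun ψ => s.symm.toAlgHom.comp ψ
        left_inv := fun ψ => by
          ext x
          exact s.symm_apply_apply (ψ x)
        right_inv := fun ψ => by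
          ext x
          exact s.apply_symm_apply (ψ x) }
  let actM : (Ω ≃ₐ[K] Ω) → (↥(⨆ i, L i) →ₐ[K] Ω) ≃ (↥(⨆ i, L i) →ₐ[K] Ω) := fun s =>
      { toFun := fun ψ => s.toAlgHom.comp ψ
        invFun := fun ψ => s.symm.toAlgHom.comp ψ
        left_inv := fun ψ => by
          ext x
          exact s.symm_apply_apply (ψ x)
        right_inv := fun ψ => by
          ext x
          exact s.apply_symm_apply (ψ x) }
  let g : Equiv.Perm (Fin n) := (e.symm.trans (act σ)).trans e
  have hg : ∀ a, g a = e (σ.toAlgHom.comp (e.symm a)) := fun a => rfl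
  have hgG : g ∈ G := (hG g).2 ⟨σ, fun φ => by rw [hg, Equiv.symm_apply_apply]⟩
  have hg1 : g ≠ 1 := by
    intro hg1
    apply hi
    have := hg (e (φ0.comp ι))
    rw [hg1, Equiv.symm_apply_apply] at this
    exact (e.injective this).symm
  let p : Fin k → Fin n := fun a => e ((eH.symm a).comp ι)
  have hp : ∀ a, p (h a) = g (p a) := by
    intro a
    have e3 := hσ (eH.symm a)
    rw [Equiv.apply_symm_apply] at e3
    show e ((eH.symm (h a)).comp ι) = g (e ((eH.symm a).comp ι))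
    rw [e3, Equiv.symm_apply_apply, hg, Equiv.symm_apply_apply, AlgHom.comp_assoc]
  -- the fibres
  have hfib : ∀ b b' : Fin n, (Finset.univ.filter (fun a => p a = b)).card =
      (Finset.univ.filter (fun a => p a = b')).card := by
    intro b b'
    obtain ⟨s, hs⟩ := transit (L i) (e.symm b) (e.symm b')
    let w : Equiv.Perm (Fin k) := (eH.symm.trans (actM s)).trans eH
    have hw : ∀ a, p (w a) = e (s.toAlgHom.comp ((eH.symm a).comp ι)) := by
      intro a
      show e ((eH.symm (eH (s.toAlgHom.comp (eH.symm a)))).comp ι) = _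
      rw [Equiv.symm_apply_apply, AlgHom.comp_assoc]
    refine Finset.card_bij (fun a _ => w a) ?_ ?_ ?_
    · intro a ha
      rw [Finset.mem_filter] at ha ⊢
      refine ⟨Finset.mem_univ _, ?_⟩
      have h3 : (eH.symm a).comp ι = e.symm b := by
        rw [← ha.2]
        exact (e.symm_apply_apply _).symm
      rw [hw, h3, hs, Equiv.apply_symm_apply]
    · intro a _ a' _ haa
      exact w.injective haa
    · intro a ha
      rw [Finset.mem_filter] at ha
      refine ⟨w.symm a, ?_, w.apply_symm_apply a⟩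
      rw [Finset.mem_filter]
      refine ⟨Finset.mem_univ _, ?_⟩
      have h4 := hw (w.symm a)
      rw [Equiv.apply_symm_apply, ha.2] at h4
      have h5 : e.symm b' = s.toAlgHom.comp ((eH.symm (w.symm a)).comp ι) := by
        rw [h4, Equiv.symm_apply_apply]
      rw [← hs] at h5
      have h6 := (act s).injective h5
      show e ((eH.symm (w.symm a)).comp ι) = b
      rw [← h6, Equiv.apply_symm_apply]
  let b0 : Fin n := ⟨0, hn⟩
  set f : ℕ := (Finset.univ.filter (fun a => p a = b0)).card with hf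
  have hff : ∀ b, (Finset.univ.filter (fun a => p a = b)).card = f := fun b => hfib b b0
  have hkn : k = n * f := by
    have h7 := Finset.card_eq_sum_card_fiberwise (s := (Finset.univ : Finset (Fin k)))
      (t := (Finset.univ : Finset (Fin n))) (f := p) (fun _ _ => Finset.mem_coe.2 (Finset.mem_univ _))
    rw [Finset.card_univ, Fintype.card_fin, Finset.sum_congr rfl (fun b _ => hff b)] at h7
    simpa using h7
  have h8 := h1 k n f p hff h g hp
  have h9 := hm g hgG hg1
  calc k * m = n * (f * m) := by rw [hkn]; ring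
    _ ≤ n * (f * ind g) := Nat.mul_le_mul_left _ (Nat.mul_le_mul_left _ h9)
    _ ≤ n * ind h := Nat.mul_le_mul_left _ h8

end Pool.Agent.W174.ML2
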